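import Mathlib.Combinatorics.SimpleGraph.Clique
import Mathlib.Combinatorics.Hall.Basic

/-!
# Jets of very well covered graphs are very well covered

For every finite simple graph `G` that is very well covered and every `s`, the graph of `s`-jets of
`G` is very well covered.

Outline. In a very well covered graph every independent set `S` has at least `|S|` neighbours, so
Hall's theorem gives a perfect matching `v ↦ σ v`; by maximality of independent sets, `v` and `σ v`
have no common neighbour and every neighbour of `v` is adjacent to every neighbour of `σ v`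
(Favaron's property). The matching `(v, i) ↦ (σ v, s - i)` of the jet graph has the same property,
and this property forces every maximal independent set to meet each matching edge exactly once.
-/

set_option autoImplicit false
open Finset
open scoped Classical

namespace Pool.Agent.Results.MP_26e8bc_co.JetsVeryWellCovered

/-- `I` is an inclusion-maximal independent set of `G`. -/
def IsMaxIndep {V : Type*} (G : SimpleGraph V) (I : Finset V) : Prop :=
  G.IsIndepSet (I : Set V) ∧ ∀ J : Finset V, G.IsIndepSet (J : Set V) → I ⊆ J → J = I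

/-- `G` is well covered: all maximal independent sets have the same size. -/
def WellCovered {V : Type*} (G : SimpleGraph V) : Prop :=
  ∀ I J : Finset V, IsMaxIndep G I → IsMaxIndep G J → I.card = J.card

/-- `G` is very well covered: it has no isolated vertices, is well covered, and the number of its
vertices is twice its independence number. -/
def VeryWellCovered {V : Type*} [Fintype V] (G : SimpleGraph V) : Prop :=
  (∀ v, ∃ w, G.Adj v w) ∧ WellCovered G ∧ Fintype.card V = 2 * G.indepNum

/-- The graph of `s`-jets of `G`: vertices `(v, i)` with `0 ≤ i ≤ s`, and `(v, i)` and `(w, j)` are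
adjacent when `v` and `w` are adjacent in `G` and `i + j ≤ s`. -/
def jets {V : Type*} (G : SimpleGraph V) (s : ℕ) : SimpleGraph (V × Fin (s + 1)) where
  Adj x y := G.Adj x.1 y.1 ∧ (x.2 : ℕ) + (y.2 : ℕ) ≤ s
  symm := ⟨fun _ _ h => ⟨h.1.symm, by omega⟩⟩
  loopless := ⟨fun _ h => G.loopless.irrefl _ h.1⟩

variable {V : Type*} [Fintype V] {G : SimpleGraph V}

/-- Every independent set extends to a maximal one. -/
theorem exists_max {S : Finset V} (hS : G.IsIndepSet (S : Set V)) :
    ∃ I, IsMaxIndep G I ∧ S ⊆ I := by
  obtain ⟨I, hI, hmax⟩ := Finset.exists_max_image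
    ((univ : Finset (Finset V)).filter fun I : Finset V => G.IsIndepSet (I : Set V) ∧ S ⊆ I)
    (fun I : Finset V => I.card)
    ⟨S, by simp [hS]⟩
  simp only [mem_filter, mem_univ, true_and] at hI hmax
  refine ⟨I, ⟨hI.1, fun J hJ hIJ => ?_⟩, hI.2⟩
  exact (Finset.eq_of_subset_of_card_le hIJ (hmax J ⟨hJ, hI.2.trans hIJ⟩)).symm

/-- A maximal independent set of a very well covered graph has `|V| / 2` vertices. -/
theorem card_of_max (h : VeryWellCovered G) {I : Finset V} (hI : IsMaxIndep G I) :
    2 * I.card = Fintype.card V := by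
  obtain ⟨S, hS⟩ := G.exists_isNIndepSet_indepNum
  obtain ⟨J, hJ, hSJ⟩ := exists_max hS.isIndepSet
  have h1 : J.card ≤ G.indepNum := hJ.1.card_le_indepNum
  have h2 : S.card ≤ J.card := card_le_card hSJ
  have h3 := h.2.1 I J hI hJ
  rw [hS.card_eq] at h2
  rw [h.2.2]
  omega

/-- Converse of `card_of_max`. -/
theorem of_card (h0 : ∀ v, ∃ w, G.Adj v w)
    (h1 : ∀ I, IsMaxIndep G I → 2 * I.card = Fintype.card V) : VeryWellCovered G := by
  refine ⟨h0, fun I J hI hJ => ?_, ?_⟩
  · have := h1 I hI
    have := h1 J hJ
    omega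
  · obtain ⟨S, hS⟩ := G.exists_isNIndepSet_indepNum
    obtain ⟨J, hJ, hSJ⟩ := exists_max hS.isIndepSet
    have h2 : J.card ≤ G.indepNum := hJ.1.card_le_indepNum
    have h3 : S.card ≤ J.card := card_le_card hSJ
    have h4 := h1 J hJ
    rw [hS.card_eq] at h3
    omega

/-- Neighbours of a set of vertices. -/
noncomputable def nb (G : SimpleGraph V) (S : Finset V) : Finset V :=
  univ.filter fun w => ∃ v ∈ S, G.Adj v w

theorem mem_nb {S : Finset V} {w : V} : w ∈ nb G S ↔ ∃ v ∈ S, G.Adj v w := by
  simp [nb]

/-- In a very well covered graph, independent sets satisfy Hall's condition. -/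
theorem hall (h : VeryWellCovered G) : ∀ S : Finset V, G.IsIndepSet (S : Set V) →
    S.card ≤ (nb G S).card := by
  intro S
  induction S using Finset.strongInduction with
  | H S ih =>
    intro hS
    by_contra hlt
    push Not at hlt
    have hne : S.Nonempty := by
      rw [nonempty_iff_ne_empty]
      rintro rfl
      simp at hlt
    obtain ⟨x, hx⟩ := hne
    obtain ⟨w, hxw⟩ := h.1 x
    obtain ⟨K, hK, hwK⟩ := exists_max (G := G) (S := {w}) (by simp)
    rw [singleton_subset_iff] at hwK
    -- `x` is not in `K`
    have hxK : x ∉ K := fun hxK => hK.1 hxK hwK hxw.ne hxw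
    -- the new independent set
    have hind : G.IsIndepSet (((K \ nb G S) ∪ S : Finset V) : Set V) := by
      intro a ha b hb hab hadj
      rw [mem_coe, mem_union, mem_sdiff] at ha hb
      rcases ha with ha | ha <;> rcases hb with hb | hb
      · exact hK.1 ha.1 hb.1 hab hadj
      · exact ha.2 (mem_nb.mpr ⟨b, hb, hadj.symm⟩)
      · exact hb.2 (mem_nb.mpr ⟨a, ha, hadj⟩)
      · exact hS ha hb hab hadj
    obtain ⟨L, hL, hLsub⟩ := exists_max hind
    have hc1 := card_of_max h hK
    have hc2 := card_of_max h hL
    have hc3 := card_le_card hLsub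
    have hdisj : Disjoint (K \ nb G S) (S \ K) := by
      rw [disjoint_left]
      intro a ha hb
      exact (mem_sdiff.mp hb).2 (mem_sdiff.mp ha).1
    have hsub2 : (K \ nb G S) ∪ (S \ K) ⊆ (K \ nb G S) ∪ S :=
      union_subset_union_right sdiff_subset
    have hc4 := card_le_card hsub2
    rw [card_union_of_disjoint hdisj] at hc4
    have hc5 : (K \ nb G S).card + (K ∩ nb G S).card = K.card := card_sdiff_add_card_inter _ _
    have hc6 : (S \ K).card + (S ∩ K).card = S.card := card_sdiff_add_card_inter _ _
    -- the smaller set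
    have hprop : S ∩ K ⊂ S := by
      refine ⟨inter_subset_left, fun hh => hxK (mem_inter.mp (hh hx)).2⟩
    have hSK : G.IsIndepSet ((S ∩ K : Finset V) : Set V) := by
      intro a ha b hb
      rw [mem_coe, mem_inter] at ha hb
      exact hS ha.1 hb.1
    have hih := ih _ hprop hSK
    have hnb : nb G (S ∩ K) ⊆ nb G S \ (K ∩ nb G S) := by
      intro a ha
      obtain ⟨v, hv, hva⟩ := mem_nb.mp ha
      rw [mem_inter] at hv
      rw [mem_sdiff, mem_inter, mem_nb]
      refine ⟨⟨v, hv.1, hva⟩, fun hh => ?_⟩
      exact hK.1 hv.2 hh.1 hva.ne hva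
    have hc7 := card_le_card hnb
    rw [card_sdiff_of_subset inter_subset_right] at hc7
    have hc8 : (K ∩ nb G S).card ≤ (nb G S).card := card_le_card inter_subset_right
    omega

/-- Favaron's property: a perfect matching `σ` such that `v` and `σ v` have no common neighbour and
every neighbour of `v` is adjacent to every neighbour of `σ v`. -/
def Fav {V : Type*} (G : SimpleGraph V) (σ : V → V) : Prop :=
  (∀ v, σ (σ v) = v) ∧ (∀ v, G.Adj v (σ v)) ∧
    (∀ v a b, G.Adj v a → G.Adj (σ v) b → G.Adj a b)

/-- A very well covered graph has a matching with Favaron's property. -/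
theorem exists_fav (h : VeryWellCovered G) : ∃ σ, Fav G σ := by
  obtain ⟨I, hI, -⟩ := exists_max (G := G) (S := ∅) (by simp)
  -- Hall's theorem
  have hall' : ∀ s : Finset I, s.card ≤ (s.biUnion fun v => nb G {(v : V)}).card := by
    intro s
    have h1 : G.IsIndepSet ((s.map (Function.Embedding.subtype (· ∈ I)) : Finset V) : Set V) := by
      intro a ha b hb
      rw [mem_coe, mem_map] at ha hb
      obtain ⟨a', -, rfl⟩ := ha
      obtain ⟨b', -, rfl⟩ := hb
      exact hI.1 a'.2 b'.2
    have h2 := hall h _ h1
    rw [card_map] at h2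
    refine h2.trans (card_le_card ?_)
    intro w hw
    obtain ⟨v, hv, hvw⟩ := mem_nb.mp hw
    rw [mem_map] at hv
    obtain ⟨v', hv', rfl⟩ := hv
    rw [mem_biUnion]
    exact ⟨v', hv', mem_nb.mpr ⟨_, mem_singleton_self _, hvw⟩⟩
  obtain ⟨f, hfinj, hf⟩ := (Finset.all_card_le_biUnion_card_iff_exists_injective _).mp hall'
  have hadj : ∀ v : I, G.Adj v (f v) := by
    intro v
    obtain ⟨v', hv', h'⟩ := mem_nb.mp (hf v)
    rw [mem_singleton] at hv'
    rwa [← hv']
  have hnot : ∀ v : I, f v ∉ I := fun v hv => hI.1 v.2 hv (hadj v).ne (hadj v)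
  have hcard : I.card = (Iᶜ : Finset V).card := by
    have := card_of_max h hI
    rw [card_compl]
    omega
  have himg : (univ : Finset I).image f = Iᶜ := by
    apply Finset.eq_of_subset_of_card_le
    · intro w hw
      rw [mem_image] at hw
      obtain ⟨v, -, rfl⟩ := hw
      rw [mem_compl]
      exact hnot v
    · rw [card_image_of_injective _ hfinj, ← hcard]
      simp
  have hsurj : ∀ w, w ∉ I → ∃ v : I, f v = w := by
    intro w hw
    have : w ∈ (univ : Finset I).image f := by rw [himg, mem_compl]; exact hw
    obtain ⟨v, -, hv⟩ := mem_image.mp this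
    exact ⟨v, hv⟩
  choose g hg using hsurj
  let σ : V → V := fun v => if hv : v ∈ I then f ⟨v, hv⟩ else (g v hv : V)
  have σ1 : ∀ v (hv : v ∈ I), σ v = f ⟨v, hv⟩ := fun v hv => dif_pos hv
  have σ2 : ∀ v (hv : v ∉ I), σ v = g v hv := fun v hv => dif_neg hv
  have hσσ : ∀ v, σ (σ v) = v := by
    intro v
    by_cases hv : v ∈ I
    · rw [σ1 v hv, σ2 _ (hnot _)]
      have := hfinj (hg _ (hnot ⟨v, hv⟩))
      exact congrArg Subtype.val this
    · rw [σ2 v hv, σ1 _ (g v hv).2]
      exact hg v hv
  have hσadj : ∀ v, G.Adj v (σ v) := by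
    intro v
    by_cases hv : v ∈ I
    · rw [σ1 v hv]; exact hadj ⟨v, hv⟩
    · rw [σ2 v hv]
      have := hadj (g v hv)
      rw [hg v hv] at this
      exact this.symm
  -- every maximal independent set contains `v` or `σ v`
  have key : ∀ K, IsMaxIndep G K → ∀ v, v ∈ K ∨ σ v ∈ K := by
    intro K hK v
    by_contra hcon
    push Not at hcon
    have hsub : K.image σ ⊆ (Kᶜ).erase v := by
      intro w hw
      obtain ⟨u, hu, rfl⟩ := mem_image.mp hw
      rw [mem_erase, mem_compl]
      refine ⟨?_, fun hh => hK.1 hu hh (hσadj u).ne (hσadj u)⟩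
      intro hh
      apply hcon.2
      rw [← hh, hσσ]
      exact hu
    have hinj : Function.Injective σ := fun a b hab => by
      rw [← hσσ a, ← hσσ b, hab]
    have h1 := card_le_card hsub
    rw [card_image_of_injective _ hinj, card_erase_of_mem (mem_compl.mpr hcon.1), card_compl] at h1
    have h2 := card_of_max h hK
    have h3 : 0 < Fintype.card V := Fintype.card_pos_iff.mpr ⟨v⟩
    omega
  refine ⟨σ, hσσ, hσadj, ?_⟩
  intro v a b hva hvb
  by_contra hab
  have hind : G.IsIndepSet (({a, b} : Finset V) : Set V) := by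
    intro x hx y hy hxy
    simp only [coe_insert, coe_singleton, Set.mem_insert_iff, Set.mem_singleton_iff] at hx hy
    rcases hx with rfl | rfl <;> rcases hy with rfl | rfl
    · exact absurd rfl hxy
    · exact hab
    · exact fun hh => hab hh.symm
    · exact absurd rfl hxy
  obtain ⟨K, hK, hsub⟩ := exists_max hind
  have haK : a ∈ K := hsub (by simp)
  have hbK : b ∈ K := hsub (by simp)
  rcases key K hK v with hh | hh
  · exact hK.1 hh haK hva.ne hva
  · exact hK.1 hh hbK hvb.ne hvb

/-- A graph with a matching with Favaron's property is very well covered. -/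
theorem of_fav {σ : V → V} (h : Fav G σ) : VeryWellCovered G := by
  obtain ⟨h1, h2, h3⟩ := h
  refine of_card (fun v => ⟨_, h2 v⟩) fun I hI => ?_
  have hinj : Function.Injective σ := fun a b hab => by
    rw [← h1 a, ← h1 b, hab]
  have hA : I.image σ ⊆ Iᶜ := by
    intro w hw
    obtain ⟨u, hu, rfl⟩ := mem_image.mp hw
    rw [mem_compl]
    exact fun hh => hI.1 hu hh (h2 u).ne (h2 u)
  have hext : ∀ v, v ∉ I → ∃ a ∈ I, G.Adj v a := by
    intro v hv
    by_contra hcon
    push Not at hcon
    have hind : G.IsIndepSet ((insert v I : Finset V) : Set V) := by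
      intro x hx y hy hxy
      rw [mem_coe, mem_insert] at hx hy
      rcases hx with rfl | hx <;> rcases hy with rfl | hy
      · exact absurd rfl hxy
      · exact hcon y hy
      · exact fun hh => hcon x hx hh.symm
      · exact hI.1 hx hy hxy
    have := hI.2 _ hind (subset_insert _ _)
    exact hv (this ▸ mem_insert_self v I)
  have hB : (Iᶜ : Finset V).image σ ⊆ I := by
    intro w hw
    obtain ⟨u, hu, rfl⟩ := mem_image.mp hw
    rw [mem_compl] at hu
    by_contra hh
    obtain ⟨a, ha, hua⟩ := hext u hu
    obtain ⟨b, hb, hub⟩ := hext (σ u) hh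
    have hab := h3 u a b hua hub
    exact hI.1 ha hb hab.ne hab
  have hcA := card_le_card hA
  have hcB := card_le_card hB
  rw [card_image_of_injective _ hinj] at hcA hcB
  rw [card_compl] at hcA hcB
  have := card_le_univ I
  omega

/-- Favaron's property passes to the graph of jets. -/
theorem fav_jets {σ : V → V} (h : Fav G σ) (s : ℕ) :
    Fav (jets G s) fun x => (σ x.1, x.2.rev) := by
  obtain ⟨h1, h2, h3⟩ := h
  refine ⟨?_, ?_, ?_⟩
  · rintro ⟨v, i⟩
    simp [h1]
  · rintro ⟨v, i⟩
    refine ⟨h2 v, ?_⟩
    have := Fin.val_rev i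
    simp only [this]
    omega
  · rintro ⟨v, i⟩ ⟨a, j⟩ ⟨b, l⟩ ⟨hva, hij⟩ ⟨hvb, hil⟩
    refine ⟨h3 v a b hva hvb, ?_⟩
    have := Fin.val_rev i
    simp only [this] at hij hil ⊢
    omega

/-- For every very well covered finite graph `G` and every `s`, the graph of `s`-jets of `G` is
very well covered. -/
theorem result {V : Type*} [Fintype V] (G : SimpleGraph V) (hG : VeryWellCovered G) (s : ℕ) :
    VeryWellCovered (jets G s) := by
  obtain ⟨σ, hσ⟩ := exists_fav hG
  exact of_fav (fav_jets hσ s)

end Pool.Agent.Results.MP_26e8bc_co.JetsVeryWellCovered
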