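import Mathlib
import Pool.Agent.Q263.K3.Pro

/-!
# The noncommutative Hodge conjecture for products with K3 categories one period of which moves

Let `𝒯` be an admissible subcategory of K3 type, for instance the Kuznetsov component of a cubic
fourfold or of a Gushel–Mukai variety of even dimension, or the derived category of a K3 surface.
Then `K^top(𝒯) ⊗ ℚ` is the sum of a Hodge structure `T` of K3 type, of rank `r`, and of the span of
`m` classes of objects `e_j`. Let `C` be ANY admissible subcategory of the derived category of any
smooth proper complex variety, for instance one which is not the derived category of a variety, and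
let `K` be a field which contains the entries of the Hodge operator `A` of `K^top(C) ⊗ ℚ = ℚ ^ v`.

Suppose that `r ≠ 4`, that the Hodge structure `T` has no other endomorphisms than `ℚ` (which
follows if `r < p (D + 1)`, `p` the smallest prime factor of `r`, `D` the number of elements of a set
of periods of `𝒯` which are algebraically independent over `K`), and that ONE period of `𝒯` is
transcendental over `K`. Then, for all `n < r`, the noncommutative Hodge conjecture for the product
`𝒯^n ⊠ C` is equivalent to the one for `C`, and it implies the one for all admissible subcategories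
of `𝒯^n ⊠ C`.

Of the spans `O n` of the classes of objects of `𝒯^n ⊠ C` we use (`CycleSpans`): closure under
exterior products with the objects with classes `e_j`; closure under exterior products with the
`T`-part of the class of the diagonal bimodule in `𝒯 ⊠ 𝒯` (such categories are equivalent to
their opposite categories); and that the class `y` of `K^top(C)` is a combination of classes of
objects if `e_j0 ⊗ ... ⊗ e_j0 ⊗ y` is (apply `Hom(E, -)`, for an object `E` of class `e_j0` with
`χ(E, E) ≠ 0`, in the factors `𝒯`). An admissible subcategory of `𝒯^n ⊠ C` is given by its projection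
functor, which acts on `K^top` as an idempotent `P` which preserves `O n`.

The theorem on Hodge classes used in the proof is the one of `OneTranscendentalPeriod`
(MP_e12fcd_ag, the Hodge conjecture for varieties `X^n × Y`).
-/

namespace Pool.Agent.Results.MP_43e44c_ag.K3CategoriesOnePeriod

open Pool.Agent.Q263.K3

/-- The noncommutative Hodge conjecture for the admissible subcategory with projection functor
acting by `P` on `K^top(𝒯^n ⊠ C)`: its Hodge classes are combinations of classes of its objects. -/
def NCHodgeComponent {r v m n : ℕ} (T : K3Type r) (A : Matrix (Fin v) (Fin v) ℂ)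
    (On : Submodule ℚ (Cls r m n v)) (P : Cls r m n v →ₗ[ℚ] Cls r m n v) : Prop :=
  ∀ F : Cls r m n v, IsHodgeP T A F → P F = F → F ∈ On.map P

/-- The noncommutative Hodge conjecture for `𝒯^n ⊠ C`, `𝒯` a K3 category with `End(T) = ℚ` one period
of which is transcendental over the field `K` of the periods of `C`. -/
theorem result {r v m : ℕ} (T : K3Type r) {i0 : Fin r} (h0 : T.ω i0 = 1) (hr : r ≠ 4)
    (A : Matrix (Fin v) (Fin v) ℂ) (K : Subfield ℂ) (hK : ∀ b c, A b c ∈ K)
    (s : Finset (Fin r)) (hne : s.Nonempty) (hs : AlgebraicIndependent K fun i : s => T.ω i)
    (hE : EndQ T ∨ r < r.minFac * (s.card + 1)) (j0 : Fin m)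
    (O : ∀ n, Submodule ℚ (Cls r m n v)) (hO : CycleSpans T m v j0 O) :
    ∀ n < r, (HodgeConj T A O n ↔ HodgeConj T A O 0) ∧
      (HodgeConj T A O 0 → ∀ P : Cls r m n v →ₗ[ℚ] Cls r m n v,
        NCHodgeComponent T A (O n) P) := by
  intro n hn
  have h := (main_product T h0 hr A K hK s hne hs hE j0 O hO).1 n hn
  exact ⟨h, fun h1 P F hF hPF => ⟨F, h.2 h1 F hF, hPF⟩⟩

end Pool.Agent.Results.MP_43e44c_ag.K3CategoriesOnePeriod
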